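import Pool.Agent.H5.BinCol2

set_option autoImplicit false

namespace Pool.Agent.Results.MP_918176_nt.Full
open Pool.Agent.H5.BinCol

/-- Q1 holds. Q2 is false: the two inequalities hold, but for `k % 4 = 3` the second one is
never an equality. -/
theorem result :
    (∀ k n : ℕ, 0 < k → 0 < n →
      nu (c (2 * k) (4 * n) - c (2 * k) n) = nu n + 2 * nu k + 3) ∧
    (¬ ((∀ k n : ℕ, 0 < n →
          nu n + 3 ≤ nu (c (4 * k + 1) (4 * n) - c (4 * k + 1) n) ∧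
          nu n + 6 ≤ nu (c (4 * k + 3) (4 * n) - c (4 * k + 3) n)) ∧
        (∀ k : ℕ,
          {n : ℕ | 0 < n ∧ nu (c (4 * k + 1) (4 * n) - c (4 * k + 1) n) = nu n + 3}.Infinite ∧
          {n : ℕ | 0 < n ∧ nu (c (4 * k + 3) (4 * n) - c (4 * k + 3) n) = nu n + 6}.Infinite))) ∧
    (∀ k n : ℕ, 0 < n →
      nu n + 3 ≤ nu (c (4 * k + 1) (4 * n) - c (4 * k + 1) n) ∧
      nu n + 6 ≤ nu (c (4 * k + 3) (4 * n) - c (4 * k + 3) n)) ∧
    (∀ k n : ℕ, Odd n → nu (c (4 * k + 1) (4 * n) - c (4 * k + 1) n) = nu n + 3) ∧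
    (∀ k n : ℕ, k % 4 = 3 → 0 < n →
      nu n + 7 ≤ nu (c (4 * k + 3) (4 * n) - c (4 * k + 3) n)) := by
  refine ⟨fun k n hk hn => q1 k n hk hn, ?_, fun k n hn => ⟨q2a k n hn, q2b k n hn⟩,
    fun k n hn => q2a_eq k n hn, fun k n hk hn => q2c k n hk hn⟩
  rintro ⟨-, h⟩
  obtain ⟨n, hn, he⟩ := (h 3).2.nonempty
  have h7 := q2c 3 n rfl hn
  rw [he] at h7
  obtain ⟨a, n', hodd, rfl⟩ := Nat.exists_eq_two_pow_mul_odd hn.ne'
  rw [nu_nat a n' hodd] at h7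
  have : a + 7 ≤ a + 6 := by exact_mod_cast h7
  omega

end Pool.Agent.Results.MP_918176_nt.Full
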